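import Pool.Agent.Lib.MP_f15a68_nt.Height

/-!
# Q2 fails at `p = 5`, `n = 1`

The first accumulation point `L(5,1)` of the Weil heights of totally `5`-adic numbers is strictly
smaller than `5 * log 5 / 24`.  The witnesses are the roots of the polynomials
`H 0 = (X ^ 5 - X) ^ 4 - 5 ^ 4`,
`H (j + 1) = H j ^ 5 - 5 ^ (9 * 5 ^ j - 1) * (X ^ 5 - X) ^ (12 * 5 ^ j) * H j`,
which are monic with integer coefficients, of degree `20 * 5 ^ j`, split into distinct linear
factors over `ℤ_[5]`, and have Mahler measure at most `713 ^ (5 ^ j)`.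
-/

namespace Pool.Agent.Results.MP_f15a68_nt.HeightAccumulation

/-- The field of totally `p`-adic numbers: generated over `ℚ` by the algebraic numbers whose
minimal polynomial over `ℚ` splits into linear factors over `ℚ_[p]`. -/
noncomputable def totallyPadic (p : ℕ) [Fact p.Prime] :
    IntermediateField ℚ (AlgebraicClosure ℚ) :=
  IntermediateField.adjoin ℚ {x : AlgebraicClosure ℚ |
    ((minpoly ℚ x).map (algebraMap ℚ ℚ_[p])).Splits}

/-- `L(p,n)`: the infimum of the reals `c` such that infinitely many algebraic numbers of degree `n`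
over the field of totally `p`-adic numbers have absolute logarithmic Weil height below `c`. -/
noncomputable def heightL (p : ℕ) [Fact p.Prime] (n : ℕ) : ℝ :=
  sInf {c : ℝ | Set.Infinite {α : AlgebraicClosure ℚ |
    (minpoly (totallyPadic p) α).natDegree = n ∧ NumberField.absLogHeight₁ α < c}}

/-- Q2 fails: for `p = 5` one has `L(p,1) < (p / (p ^ 2 - 1)) * (log p) / 1`. -/
theorem result (p : ℕ) [Fact p.Prime] (hp : p = 5) :
    heightL p 1 < (p : ℝ) / ((p : ℝ) ^ 2 - 1) * (Real.log p / ((1 : ℕ) : ℝ)) := by
  subst hp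
  have hmem : (33 / 100 : ℝ) ∈ {c : ℝ | Set.Infinite {α : AlgebraicClosure ℚ |
      (minpoly (totallyPadic 5) α).natDegree = 1 ∧ NumberField.absLogHeight₁ α < c}} := by
    rw [Set.mem_ofPred_eq]
    refine (Agent.Lib.MP_f15a68_nt.infinite_small (33 / 100)
      Agent.Lib.MP_f15a68_nt.log713).mono ?_
    rintro α ⟨h1, h2, h3⟩
    refine ⟨?_, ?_⟩
    · rw [minpoly.natDegree_eq_one_iff]
      have hα : α ∈ totallyPadic 5 := by
        refine IntermediateField.subset_adjoin _ _ ?_
        rw [Set.mem_ofPred_eq, Polynomial.splits_iff_card_roots, Polynomial.natDegree_map]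
        exact h2
      exact ⟨⟨α, hα⟩, rfl⟩
    · rw [Agent.Lib.MP_f15a68_nt.absLogHeight_eq_ht α h1]; exact h3
  have hbdd : BddBelow {c : ℝ | Set.Infinite {α : AlgebraicClosure ℚ |
      (minpoly (totallyPadic 5) α).natDegree = 1 ∧ NumberField.absLogHeight₁ α < c}} := by
    refine ⟨0, ?_⟩
    rintro c hc
    obtain ⟨α, -, h3⟩ := hc.nonempty
    refine le_trans ?_ h3.le
    unfold NumberField.absLogHeight₁ NumberField.absMulHeight₁
    split_ifs with h
    · have hfd : FiniteDimensional ℚ (IntermediateField.adjoin ℚ {α}) :=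
        IntermediateField.adjoin.finiteDimensional h
      have hnf : NumberField (IntermediateField.adjoin ℚ {α}) := {}
      apply Real.log_nonneg
      apply Real.one_le_rpow (Height.one_le_mulHeight₁ _)
      positivity
    · simp
  have hle : heightL 5 1 ≤ 33 / 100 := csInf_le hbdd hmem
  have hlog := Agent.Lib.MP_f15a68_nt.log5
  refine lt_of_le_of_lt hle ?_
  norm_num
  linarith

end Pool.Agent.Results.MP_f15a68_nt.HeightAccumulation
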